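import Pool.Agent.Q83.Haar.Main
import Pool.Agent.Q83.Haar.Exist

/-!
The Haar shift of an indicator function has a fixed proportion of its energy outside the set.
-/

set_option autoImplicit false
open MeasureTheory Set

namespace Pool.Agent.Results.MP_02a511_an.Eta

/-- The real space `L²(ℝ)`. -/
noncomputable abbrev L2R := Lp ℝ 2 (volume : Measure ℝ)

/-- The bounded linear operators on `L²(ℝ)`. -/
noncomputable abbrev Op := L2R →L[ℝ] L2R

/-- The value of an operator. -/
noncomputable def app (T : Op) (f : L2R) : L2R := T f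

/-- The dyadic interval `[k 2^j, (k+1) 2^j)`. Its halves are `dy (j-1) (2k)` (left) and
`dy (j-1) (2k+1)` (right). -/
def dy (j k : ℤ) : Set ℝ := Ico (k * (2 : ℝ) ^ j) ((k + 1) * 2 ^ j)

/-- The Haar function of `J = dy j k`: `|J|^{-1/2} (1_{J_+} - 1_{J_-})`. -/
noncomputable def haar (j k : ℤ) (x : ℝ) : ℝ :=
  (√((2 : ℝ) ^ j))⁻¹ *
    ((dy (j - 1) (2 * k + 1)).indicator 1 x - (dy (j - 1) (2 * k)).indicator 1 x)

lemma haar_eq (j k : ℤ) : haar j k = Q83.Haar.hf j k := rfl

lemma memLp_haar (j k : ℤ) : MemLp (haar j k) 2 volume := Q83.Haar.memLp_hf j k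

/-- The Haar function as an element of `L²(ℝ)`. -/
noncomputable def haarL (j k : ℤ) : L2R := (memLp_haar j k).toLp _

/-- The relations `T h_{I_+} = h_{I_-}` and `T h_{I_-} = - h_{I_+}` for every `I = dy j k`. -/
def IsHaarShift (T : Op) : Prop :=
  ∀ j k : ℤ, app T (haarL (j - 1) (2 * k + 1)) = haarL (j - 1) (2 * k) ∧
    app T (haarL (j - 1) (2 * k)) = -haarL (j - 1) (2 * k + 1)

lemma isShift_iff (T : Op) : IsHaarShift T ↔ Q83.Haar.IsShift T := by
  constructor
  · intro h j k
    have := h (j + 1) k
    rw [show j + 1 - 1 = j by ring] at this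
    exact this
  · intro h j k
    exact h (j - 1) k

/-- `f` is the class of the indicator function of `V`. -/
def IsInd (V : Set ℝ) (f : L2R) : Prop := f =ᵐ[volume] V.indicator (fun _ => 1)

/-- The energy of `f` on `V`. -/
noncomputable def en (V : Set ℝ) (f : L2R) : ℝ := ∫ x in V, f x ^ 2

/-- The inequality `∫_V (T 1_V)² ≤ η |V|` for all Lebesgue measurable sets of finite measure. -/
def Bound (T : Op) (η : ℝ) : Prop := ∀ V : Set ℝ, NullMeasurableSet V volume → volume V < ⊤ →
  ∀ f : L2R, IsInd V f → en V (app T f) ≤ η * volume.real V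

/-- There is exactly one Haar shift `T`, and `∫_V (T 1_V)² ≤ (1023/1024) |V|` for every Lebesgue
measurable set `V` of finite measure. -/
theorem result : (∃! T : Op, IsHaarShift T) ∧ ∀ T : Op, IsHaarShift T → Bound T (1023 / 1024) := by
  constructor
  · obtain ⟨T, hT⟩ := Q83.Haar.exists_shift
    refine ⟨T, (isShift_iff T).2 hT, fun T' hT' => ?_⟩
    exact Q83.Haar.unique_shift ((isShift_iff T').1 hT') hT
  · intro T hT V hV hVf f hf
    set W := toMeasurable volume V with hW
    have hWV : W =ᵐ[volume] V := hV.toMeasurable_ae_eq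
    have hWm : MeasurableSet W := measurableSet_toMeasurable _ _
    have hWvol : volume W = volume V := measure_congr hWV
    have hWf : volume W ≠ ⊤ := by rw [hWvol]; exact hVf.ne
    have hfW : f = Q83.Haar.fV W hWm hWf := by
      apply Lp.ext
      refine Filter.EventuallyEq.trans hf ?_
      refine Filter.EventuallyEq.trans ?_ (Q83.Haar.coe_fV W hWm hWf).symm
      exact (indicator_ae_eq_of_ae_eq_set hWV).symm
    have h := Q83.Haar.main_bound W hWm hWf ((isShift_iff T).1 hT) (1 / 256) (by norm_num)
      (by norm_num)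
    rw [← hfW, setIntegral_congr_set hWV, measureReal_congr hWV] at h
    unfold en app
    refine h.trans (le_of_eq ?_)
    norm_num

end Pool.Agent.Results.MP_02a511_an.Eta
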